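import Pool.Agent.Helper52.ETSP.CDefs
import Pool.Agent.Helper58.PolyLib

/-! # Module Z3: the code of an instance as the code of raw data -/

namespace Pool.Agent.Helper99.ETSP

open Pool.Agent.Helper52.ETSP

/-- raw data of an integer -/
def rawZ (z : ℤ) : Bool × List Bool := (decide (z < 0), z.natAbs.bits)

/-- raw data of an instance -/
def raw (I : Instance) : List ((Bool × List Bool) × (Bool × List Bool)) × List Bool :=
  ((List.ofFn I.pt).map (fun p => ((decide (p.1 < 0), p.1.natAbs.bits),
    (decide (p.2 < 0), p.2.natAbs.bits))), I.bound.bits)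

/-- from one type of binary trees to the other -/
def conv : Pool.Agent.Helper52.Poly.T → Pool.Agent.Helper58.DTree
  | .leaf => .nil
  | .node a b => .cons (conv a) (conv b)

theorem code_conv (t : Pool.Agent.Helper52.Poly.T) : (conv t).code = t.code := by
  induction t with
  | leaf => rfl
  | node a b iha ihb =>
    simp only [conv, Pool.Agent.Helper58.DTree.code, Pool.Agent.Helper52.Poly.T.code, iha, ihb]

theorem conv_bool (b : Bool) :
    conv (Pool.Agent.Helper52.Poly.enc b) = Pool.Agent.Helper58.enc b := by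
  cases b <;> rfl

theorem conv_list {α β : Type} [Pool.Agent.Helper52.Poly.Enc α] [Pool.Agent.Helper58.Enc β]
    (f : α → β) (hf : ∀ a, conv (Pool.Agent.Helper52.Poly.enc a) = Pool.Agent.Helper58.enc (f a))
    (l : List α) :
    conv (Pool.Agent.Helper52.Poly.enc l) = Pool.Agent.Helper58.enc (l.map f) := by
  induction l with
  | nil => rfl
  | cons a l ih =>
    change Pool.Agent.Helper58.DTree.cons (conv (Pool.Agent.Helper52.Poly.enc a))
      (conv (Pool.Agent.Helper52.Poly.enc l)) =
      Pool.Agent.Helper58.DTree.cons (Pool.Agent.Helper58.enc (f a))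
        (Pool.Agent.Helper58.enc (l.map f))
    rw [hf, ih]

theorem conv_pair {α β α' β' : Type} [Pool.Agent.Helper52.Poly.Enc α]
    [Pool.Agent.Helper52.Poly.Enc β] [Pool.Agent.Helper58.Enc α'] [Pool.Agent.Helper58.Enc β']
    {a : α} {b : β} {a' : α'} {b' : β'}
    (ha : conv (Pool.Agent.Helper52.Poly.enc a) = Pool.Agent.Helper58.enc a')
    (hb : conv (Pool.Agent.Helper52.Poly.enc b) = Pool.Agent.Helper58.enc b') :
    conv (Pool.Agent.Helper52.Poly.enc (a, b)) = Pool.Agent.Helper58.enc (a', b') := by
  change Pool.Agent.Helper58.DTree.cons (conv (Pool.Agent.Helper52.Poly.enc a))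
    (conv (Pool.Agent.Helper52.Poly.enc b)) = Pool.Agent.Helper58.DTree.cons _ _
  rw [ha, hb]

theorem conv_nat (n : ℕ) :
    conv (Pool.Agent.Helper52.Poly.enc n) = Pool.Agent.Helper58.enc n.bits := by
  have h := conv_list (fun b : Bool => b) conv_bool n.bits
  rw [List.map_id'] at h
  exact h

theorem conv_int (z : ℤ) :
    conv (Pool.Agent.Helper52.Poly.enc z) =
      Pool.Agent.Helper58.enc (decide (z < 0), z.natAbs.bits) :=
  conv_pair (conv_bool _) (conv_nat _)

theorem conv_raw (I : Instance) :
    conv (Pool.Agent.Helper52.Poly.enc I) = Pool.Agent.Helper58.enc (raw I) := by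
  refine conv_pair ?_ (conv_nat _)
  exact conv_list _ (fun p => conv_pair (conv_int _) (conv_int _)) _

theorem code_eq (I : Instance) :
    Pool.Agent.Helper52.Poly.code I = (Pool.Agent.Helper58.enc (raw I)).code := by
  rw [← conv_raw, code_conv]
  rfl

theorem rawZ_inj {z w : ℤ} (h1 : decide (z < 0) = decide (w < 0))
    (h2 : z.natAbs.bits = w.natAbs.bits) : z = w := by
  have h3 : z.natAbs = w.natAbs := Pool.Agent.Helper58.bits_inj h2
  have h4 : z < 0 ↔ w < 0 := by simpa using h1
  omega

theorem code_inj :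
    Function.Injective (Pool.Agent.Helper52.Poly.code : Instance → List Bool) := by
  intro I J h
  rw [code_eq, code_eq] at h
  have h1 := Pool.Agent.Helper58.Enc.inj (Pool.Agent.Helper58.DTree.code_inj h)
  unfold raw at h1
  rw [Prod.mk.injEq] at h1
  obtain ⟨h2, h3⟩ := h1
  have h4 : I.bound = J.bound := Pool.Agent.Helper58.bits_inj h3
  have hf : Function.Injective (fun p : ℤ × ℤ => ((decide (p.1 < 0), p.1.natAbs.bits),
      (decide (p.2 < 0), p.2.natAbs.bits))) := by
    rintro ⟨a, b⟩ ⟨c, d⟩ h
    simp only [Prod.mk.injEq] at h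
    exact Prod.ext (rawZ_inj h.1.1 h.1.2) (rawZ_inj h.2.1 h.2.2)
  have h5 : List.ofFn I.pt = List.ofFn J.pt := List.map_injective_iff.2 hf h2
  obtain ⟨n, p, hp, b, hb⟩ := I
  obtain ⟨m, q, hq, c, hc⟩ := J
  simp only at h4 h5
  have hn : n = m := by
    have := congrArg List.length h5
    simpa using this
  subst hn
  subst h4
  have : p = q := List.ofFn_injective h5
  subst this
  rfl

end Pool.Agent.Helper99.ETSP
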